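import Pool.Agent.Q20.AS.MainD

set_option autoImplicit false

/-!
# Configurations of residue classes without small primes, every modulus

`p(a, b)` is the least prime `≡ b (mod a)`.

(1) Let `C`, `δ > 0`, `K` be given. For every large modulus `a`, EVERY set `S` of at most `C (φ(a) / a) log a` pairs `(h, m)` of
integers of absolute value at most `a ^ K` and every `y ≤ a ^ K` there is a `b` prime to `a` in `[y, y + a ^ δ]` such that all the
numbers `b + h + m a`, `(h, m) ∈ S`, have a prime factor `p ≤ a ^ δ` with `p ∤ a` and `p < |b + h + m a|`.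

(2) So for every set `H` of shifts `0 ≤ h ≤ a` and every `T` with `|H| (T + 2) ≤ C (φ(a) / a) log a` there is a `b` prime to `a`,
`b ≤ a ^ δ + 1`, such that every prime in any of the classes `b + h (mod a)`, `h ∈ H`, is larger than `T a`; for example
`p(a, b + h) > T a` for all reduced classes among `|H|` consecutive ones.

Proof: `Pool.Agent.Q20.AS.formsD`, after the square weights of the project AC of the starting repository (helper410 and the
helpers of that project).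
-/

namespace Pool.Agent.Results.MP_5b0a7e_nt.ConfigurationsOfClasses

open Filter

theorem pairs (C δ : ℝ) (K : ℕ) (hδ : 0 < δ) : ∀ᶠ a : ℕ in atTop, ∀ S : Finset (ℤ × ℤ),
    (∀ s ∈ S, |s.1| ≤ (a : ℤ) ^ K ∧ |s.2| ≤ (a : ℤ) ^ K) →
    (S.card : ℝ) ≤ C * ((a.totient : ℝ) / a) * Real.log a →
    ∀ y : ℕ, y ≤ a ^ K → ∃ b : ℕ, y ≤ b ∧ (b : ℝ) ≤ y + (a : ℝ) ^ δ ∧ Nat.Coprime b a ∧
      ∀ s ∈ S, ∃ p : ℕ, p.Prime ∧ ¬ p ∣ a ∧ (p : ℝ) ≤ (a : ℝ) ^ δ ∧ (p : ℤ) ∣ b + s.1 + s.2 * a ∧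
        (p : ℤ) < |(b : ℤ) + s.1 + s.2 * a| := by
  classical
  obtain ⟨X₀, hX₀⟩ := Pool.Agent.Q20.AS.formsD C δ (K + 2) hδ
  filter_upwards [eventually_ge_atTop X₀, eventually_ge_atTop 2] with m hm hm2 J hJ hJc y hy
  have hm0 : (0 : ℝ) < m := by exact_mod_cast (by omega : 0 < m)
  have hmZ : (2 : ℤ) ≤ m := by exact_mod_cast hm2
  have hA : ∀ l ∈ J.image (fun s : ℤ × ℤ => ((1 : ℕ), s.1 + s.2 * (m : ℤ))), 1 ≤ l.1 ∧
      (∀ p : ℕ, p.Prime → p ∣ l.1 → p ∣ m) ∧ l.1 ≤ m ^ (K + 2) ∧ |l.2| ≤ (m : ℤ) ^ (K + 2) := by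
    intro l hl
    rw [Finset.mem_image] at hl
    obtain ⟨j, hj, rfl⟩ := hl
    refine ⟨le_rfl, fun p hp hd => ?_, Nat.one_le_pow _ _ (by omega), ?_⟩
    · exact absurd (Nat.dvd_one.mp hd) hp.one_lt.ne'
    · simp only
      obtain ⟨h1, h2⟩ := hJ j hj
      calc |j.1 + j.2 * (m : ℤ)| ≤ |j.1| + |j.2 * (m : ℤ)| := abs_add_le _ _
        _ ≤ (m : ℤ) ^ K * m + (m : ℤ) ^ K * m := by
            refine add_le_add ?_ ?_
            · refine h1.trans ?_
              exact le_mul_of_one_le_right (by positivity) (by linarith)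
            · rw [abs_mul, abs_of_nonneg (by positivity : (0 : ℤ) ≤ m)]
              exact mul_le_mul_of_nonneg_right h2 (by positivity)
        _ = (m : ℤ) ^ K * m * 2 := by ring
        _ ≤ (m : ℤ) ^ K * m * m := mul_le_mul_of_nonneg_left hmZ (by positivity)
        _ = (m : ℤ) ^ (K + 2) := by ring
  have hB : ((J.image (fun s : ℤ × ℤ => ((1 : ℕ), s.1 + s.2 * (m : ℤ)))).card : ℝ) * m ≤
      C * m.totient * Real.log m := by
    have h6 : ((J.image (fun s : ℤ × ℤ => ((1 : ℕ), s.1 + s.2 * (m : ℤ)))).card : ℝ) ≤ J.card := by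
      exact_mod_cast Finset.card_image_le
    calc ((J.image (fun s : ℤ × ℤ => ((1 : ℕ), s.1 + s.2 * (m : ℤ)))).card : ℝ) * m ≤ J.card * m :=
          mul_le_mul_of_nonneg_right h6 hm0.le
      _ ≤ (C * ((m.totient : ℝ) / m) * Real.log m) * m := mul_le_mul_of_nonneg_right hJc hm0.le
      _ = C * m.totient * Real.log m := by field_simp
  obtain ⟨c, h1, h2, h3, -, h5⟩ := hX₀ m hm m (by omega) (Nat.le_self_pow (by omega) m)
    (J.image (fun s : ℤ × ℤ => ((1 : ℕ), s.1 + s.2 * (m : ℤ)))) hA hB y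
    (hy.trans (Nat.pow_le_pow_right (by omega) (by omega))) ∅ (by simp; positivity)
  refine ⟨c, h1, h2, h3, fun j hj => ?_⟩
  obtain ⟨p, a1, a2, a3, a4, a5⟩ := h5 _ (Finset.mem_image_of_mem _ hj)
  simp only [Nat.cast_one, one_mul, ← add_assoc] at a4 a5
  exact ⟨p, a1, a2, a3, a4, a5⟩

theorem classes (C δ : ℝ) (hδ : 0 < δ) (hδ1 : δ < 1) : ∀ᶠ a : ℕ in atTop, ∀ (H : Finset ℕ) (T : ℕ),
    (∀ h ∈ H, h ≤ a) → (H.card : ℝ) * (T + 2) ≤ C * ((a.totient : ℝ) / a) * Real.log a →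
    ∃ b : ℕ, 1 ≤ b ∧ (b : ℝ) ≤ 1 + (a : ℝ) ^ δ ∧ Nat.Coprime b a ∧
      ∀ h ∈ H, ∀ p : ℕ, p.Prime → p ≡ b + h [MOD a] → T * a < p := by
  classical
  have hlim : ∀ᶠ a : ℕ in atTop, (1 : ℝ) + (a : ℝ) ^ δ < a := by
    have h1 : Tendsto (fun a : ℕ => (a : ℝ) ^ (1 - δ)) atTop atTop :=
      (tendsto_rpow_atTop (by linarith)).comp tendsto_natCast_atTop_atTop
    filter_upwards [h1.eventually_ge_atTop 3, eventually_ge_atTop 2] with a ha ha2
    have ha0 : (0 : ℝ) < a := by exact_mod_cast (by omega : 0 < a)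
    have h2 : (a : ℝ) = (a : ℝ) ^ δ * (a : ℝ) ^ (1 - δ) := by
      rw [← Real.rpow_add ha0]
      simp
    have h3 : (1 : ℝ) ≤ (a : ℝ) ^ δ :=
      Real.one_le_rpow (by exact_mod_cast (by omega : 1 ≤ a)) hδ.le
    have h4 : (a : ℝ) ^ δ * 3 ≤ (a : ℝ) ^ δ * (a : ℝ) ^ (1 - δ) :=
      mul_le_mul_of_nonneg_left ha (by linarith)
    linarith
  filter_upwards [pairs C δ (Nat.ceil (max C 0) + 2) hδ, eventually_ge_atTop 2, hlim]
    with a hD hD2 hlt H T hH hT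
  have hD0 : (0 : ℝ) < a := by exact_mod_cast (by omega : 0 < a)
  rcases H.eq_empty_or_nonempty with hM0 | hM0
  · obtain ⟨b, h1, h2, h3, -⟩ := hD ∅ (by simp) (by
      subst hM0
      simpa using hT) 1 (Nat.one_le_pow _ _ (by omega))
    exact ⟨b, h1, by simpa using h2, h3, by simp [hM0]⟩
  have hTle : (T : ℤ) ≤ (a : ℤ) ^ (Nat.ceil (max C 0) + 2) := by
    have h1 : (1 : ℝ) ≤ H.card := by exact_mod_cast hM0.card_pos
    have h2 : (T : ℝ) + 2 ≤ C * ((a.totient : ℝ) / a) * Real.log a := by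
      refine le_trans ?_ hT
      exact le_mul_of_one_le_left (by positivity) h1
    have h3 : (a.totient : ℝ) / a ≤ 1 := by
      rw [div_le_one hD0]
      exact_mod_cast Nat.totient_le a
    have h4 : Real.log a ≤ a := (Real.log_le_sub_one_of_pos hD0).trans (by linarith)
    have h5 : 0 ≤ Real.log (a : ℝ) := Real.log_natCast_nonneg a
    have h6 : C * ((a.totient : ℝ) / a) * Real.log a ≤ (Nat.ceil (max C 0) : ℝ) * 1 * a := by
      have h7 : C ≤ (Nat.ceil (max C 0) : ℝ) := (le_max_left C 0).trans (Nat.le_ceil _)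
      calc C * ((a.totient : ℝ) / a) * Real.log a ≤
            (Nat.ceil (max C 0) : ℝ) * ((a.totient : ℝ) / a) * Real.log a := by gcongr
        _ ≤ (Nat.ceil (max C 0) : ℝ) * 1 * a := by gcongr
    have h8 : (Nat.ceil (max C 0) : ℝ) ≤ (a : ℝ) ^ (Nat.ceil (max C 0)) := by
      have h9 : Nat.ceil (max C 0) < a ^ (Nat.ceil (max C 0)) := Nat.lt_pow_self (by omega)
      exact_mod_cast h9.le
    have h10 : (T : ℝ) ≤ (a : ℝ) ^ (Nat.ceil (max C 0) + 2) := by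
      calc (T : ℝ) ≤ (Nat.ceil (max C 0) : ℝ) * 1 * a := by linarith
        _ ≤ (a : ℝ) ^ (Nat.ceil (max C 0)) * 1 * a := by gcongr
        _ = (a : ℝ) ^ (Nat.ceil (max C 0) + 1) := by ring
        _ ≤ (a : ℝ) ^ (Nat.ceil (max C 0) + 2) :=
            pow_le_pow_right₀ (by exact_mod_cast (by omega : 1 ≤ a)) (by omega)
    exact_mod_cast h10
  have hpow : (a : ℤ) ≤ (a : ℤ) ^ (Nat.ceil (max C 0) + 2) := by
    exact_mod_cast Nat.le_self_pow (by omega) a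
  have hA : ∀ s ∈ (H ×ˢ Finset.range (T + 2)).image (fun s : ℕ × ℕ => ((s.1 : ℤ), (s.2 : ℤ) - 1)),
      |s.1| ≤ (a : ℤ) ^ (Nat.ceil (max C 0) + 2) ∧ |s.2| ≤ (a : ℤ) ^ (Nat.ceil (max C 0) + 2) := by
    intro s hs
    rw [Finset.mem_image] at hs
    obtain ⟨t, ht, rfl⟩ := hs
    rw [Finset.mem_product, Finset.mem_range] at ht
    have h1 : (t.1 : ℤ) ≤ a := by exact_mod_cast hH _ ht.1
    have h2 : (t.2 : ℤ) < T + 2 := by exact_mod_cast ht.2
    have h3 : (2 : ℤ) ≤ a := by exact_mod_cast hD2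
    simp only
    refine ⟨?_, ?_⟩
    · rw [abs_of_nonneg (by positivity)]
      linarith
    · rw [abs_le]
      constructor
      · have : (0 : ℤ) ≤ t.2 := by positivity
        linarith
      · linarith
  have hB : (((H ×ˢ Finset.range (T + 2)).image
      (fun s : ℕ × ℕ => ((s.1 : ℤ), (s.2 : ℤ) - 1))).card : ℝ) ≤
      C * ((a.totient : ℝ) / a) * Real.log a := by
    refine le_trans ?_ hT
    have h5 : ((H ×ˢ Finset.range (T + 2)).image
        (fun s : ℕ × ℕ => ((s.1 : ℤ), (s.2 : ℤ) - 1))).card ≤ H.card * (T + 2) := by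
      refine Finset.card_image_le.trans ?_
      rw [Finset.card_product, Finset.card_range]
    exact_mod_cast h5
  obtain ⟨b, h1, h2, h3, h4⟩ := hD _ hA hB 1 (Nat.one_le_pow _ _ (by omega))
  push_cast at h2
  have hba : b < a := by
    have h5 : (b : ℝ) < a := by linarith
    exact_mod_cast h5
  refine ⟨b, h1, h2, h3, fun h hh p hp hmod => ?_⟩
  by_contra hcon
  push Not at hcon
  have hha := hH h hh
  obtain ⟨k, hk⟩ := Nat.modEq_iff_dvd.mp hmod
  push_cast at hk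
  -- `p = b + h - k a`
  have hp0 := hp.pos
  have hk1 : -k ≤ T := by
    by_contra h6
    push Not at h6
    have h7 : (T : ℤ) + 1 ≤ -k := by omega
    have h8 : ((T : ℤ) + 1) * a ≤ -k * a := mul_le_mul_of_nonneg_right h7 (by positivity)
    have h9 : (p : ℤ) ≤ T * a := by exact_mod_cast hcon
    have h10 : (0 : ℤ) < b := by exact_mod_cast h1
    have h11 : (0 : ℤ) ≤ h := by positivity
    have h12 : (0 : ℤ) < a := by exact_mod_cast (by omega : 0 < a)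
    nlinarith
  have hk2 : -1 ≤ -k := by
    by_contra h6
    push Not at h6
    have h7 : (2 : ℤ) ≤ k := by omega
    have h8 : (2 : ℤ) * a ≤ k * a := mul_le_mul_of_nonneg_right h7 (by positivity)
    have h9 : (b : ℤ) < a := by exact_mod_cast hba
    have h10 : (h : ℤ) ≤ a := by exact_mod_cast hha
    have h11 : (0 : ℤ) < p := by exact_mod_cast hp0
    nlinarith
  obtain ⟨r, a1, -, -, a4, a5⟩ := h4 ((h : ℤ), -k) (by
    rw [Finset.mem_image]
    refine ⟨(h, (-k + 1).toNat), ?_, ?_⟩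
    · rw [Finset.mem_product, Finset.mem_range]
      refine ⟨hh, ?_⟩
      simp only
      omega
    · simp only [Prod.mk.injEq]
      refine ⟨trivial, ?_⟩
      omega)
  simp only at a4 a5
  have e : (b : ℤ) + (h : ℤ) + -k * (a : ℤ) = (p : ℤ) := by linarith
  rw [e] at a4 a5
  rw [abs_of_nonneg (by positivity)] at a5
  have h8 : r ∣ p := by exact_mod_cast a4
  have h9 : r < p := by exact_mod_cast a5
  rcases (Nat.dvd_prime hp).mp h8 with h | h
  · exact a1.one_lt.ne' h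
  · omega

theorem result :
    (∀ (C δ : ℝ) (K : ℕ), 0 < δ → ∀ᶠ a : ℕ in atTop, ∀ S : Finset (ℤ × ℤ),
      (∀ s ∈ S, |s.1| ≤ (a : ℤ) ^ K ∧ |s.2| ≤ (a : ℤ) ^ K) →
      (S.card : ℝ) ≤ C * ((a.totient : ℝ) / a) * Real.log a →
      ∀ y : ℕ, y ≤ a ^ K → ∃ b : ℕ, y ≤ b ∧ (b : ℝ) ≤ y + (a : ℝ) ^ δ ∧ Nat.Coprime b a ∧
        ∀ s ∈ S, ∃ p : ℕ, p.Prime ∧ ¬ p ∣ a ∧ (p : ℝ) ≤ (a : ℝ) ^ δ ∧
          (p : ℤ) ∣ b + s.1 + s.2 * a ∧ (p : ℤ) < |(b : ℤ) + s.1 + s.2 * a|) ∧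
    ∀ C δ : ℝ, 0 < δ → δ < 1 → ∀ᶠ a : ℕ in atTop, ∀ (H : Finset ℕ) (T : ℕ),
      (∀ h ∈ H, h ≤ a) → (H.card : ℝ) * (T + 2) ≤ C * ((a.totient : ℝ) / a) * Real.log a →
      ∃ b : ℕ, 1 ≤ b ∧ (b : ℝ) ≤ 1 + (a : ℝ) ^ δ ∧ Nat.Coprime b a ∧
        ∀ h ∈ H, ∀ p : ℕ, p.Prime → p ≡ b + h [MOD a] → T * a < p :=
  ⟨pairs, classes⟩

end Pool.Agent.Results.MP_5b0a7e_nt.ConfigurationsOfClasses
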