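import Pool.Agent.TH935.HM5
import Pool.Agent.Q319.DR.Fam

/-!
# The least primes in almost all residue classes to the moduli at the multiples of almost all real numbers

* For `0 < θ < 1` there is `κ₀ > 0` such that for all real `y ∈ [N ^ (1 - θ), 2 N ^ (1 - θ)]` outside a set of measure
  at most `N ^ (1 - θ - κ₀)` ALL moduli `a` in the windows of radius `log ^ A N` around the multiples `k y`,
  `k ≤ N ^ θ`, with at most `N ^ θ / log ^ U N` exceptional `k`, are good moduli.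
* For almost every real `α > 0` ALL moduli `a` in the windows of radius `log ^ A (b k)` around the numbers `α b k` are
  good, for ALL large `k`; here `b` is an arbitrary sequence of integers with `b k ≥ exp (k ^ δ)`, for instance
  `b k = 2 ^ k`.

From Mathlib: `ArithmeticFunction.vonMangoldt`: the function `Λ`; `Nat.totient`: Euler's function `φ`; `volume`: the
Lebesgue measure; `∀ᵐ α : ℝ`: for almost all real `α`; `∀ᶠ k in atTop`: for all large `k`.
The bounds for almost all moduli are from the starting files (`Pool.Agent.TH935.HM.lp_fam`), as well as the count of the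
elements of arbitrary sets of integers in intervals at multiples of real numbers (`Pool.Agent.H438R2.DL`).
-/

set_option autoImplicit false

namespace Pool.Agent.Results.MP_5b0a7e_nt.ModuliAtRealMultiples

open Finset MeasureTheory Filter

open Classical in
/-- The number of the `b` with `0 ≤ b < a` and `gcd(a, b) = 1` for which no prime `p ≤ y` is congruent to `b` modulo
`a`; for `a ≥ 2` this is the number of the reduced classes with `p(a, b) > y`. -/
noncomputable def late (a : ℕ) (y : ℝ) : ℕ :=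
  ((range a).filter (fun b => Nat.Coprime b a ∧ ∀ p : ℕ, p.Prime → (p : ℝ) ≤ y → ¬ p % a = b)).card

/-- `ψ(y; a, b) = ∑_{n ≤ y, n ≡ b mod a} Λ(n)` for `0 ≤ b < a` -/
noncomputable def psiAP (y : ℝ) (a b : ℕ) : ℝ :=
  ∑ n ∈ (Icc 1 ⌊y⌋₊).filter (fun n => n % a = b), ArithmeticFunction.vonMangoldt n

open Classical in
/-- The number of the `b` with `0 ≤ b < a` and `gcd(a, b) = 1` with
`|ψ(lam φ(a) log a; a, b) - lam log a| ≥ η lam log a`. -/
noncomputable def off (a : ℕ) (lam η : ℝ) : ℕ :=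
  ((range a).filter (fun b => Nat.Coprime b a ∧ η * (lam * Real.log a) ≤
    |psiAP (lam * (Nat.totient a * Real.log a)) a b - lam * Real.log a|)).card

/-- The modulus `a` is good: for all real `1 ≤ lam ≤ (log a) ^ κ` the least prime `p(a, b)` is larger than
`lam φ(a) log a` for at most `(1 + ε) φ(a) / lam` of the reduced classes `b`, and for all `η > 0` at most
`(1 + ε) φ(a) / (η² lam)` of the reduced classes `b` have `|ψ(lam φ(a) log a; a, b) - lam log a| ≥ η lam log a`. -/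
def Good (ε : ℝ) (κ a : ℕ) : Prop :=
  ∀ lam : ℝ, 1 ≤ lam → lam ≤ Real.log a ^ κ →
    (late a (lam * (Nat.totient a * Real.log a)) : ℝ) ≤ (1 + ε) * Nat.totient a / lam ∧
    ∀ η : ℝ, 0 < η → (off a lam η : ℝ) ≤ (1 + ε) * Nat.totient a / (lam * η ^ 2)

open Classical in
/-- The number of the `k` with `1 ≤ k ≤ K` for which not all integers `a` at a distance of at most `w` from `k y` have
the property `P`. -/
noncomputable def exceptions (K : ℝ) (y w : ℝ) (P : ℕ → Prop) : ℕ :=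
  ((Icc 1 ⌊K⌋₊).filter (fun k : ℕ => ∃ a : ℕ, |(a : ℝ) - k * y| ≤ w ∧ ¬ P a)).card

lemma good_iff (ε : ℝ) (κ a : ℕ) : Good ε κ a ↔ Pool.Agent.TH935.HM.Lp ε κ a a := Iff.rfl

lemma sparse (ε : ℝ) (hε : 0 < ε) (hε1 : ε ≤ 1) (κ : ℕ) : Pool.Agent.Q319.DR.Sparse (fun _ a => ¬ Good ε κ a) := by
  classical
  apply Pool.Agent.Q319.DR.sparse_own
  intro U
  obtain ⟨N₀, h0⟩ := Pool.Agent.TH935.HM.lp_fam 1 0 (max κ U) U ε hε hε1
  obtain ⟨N₁, h1⟩ := (tendsto_natCast_atTop_atTop.eventually (Pool.Agent.Q319.DR.ev_log 1)).exists_forall_of_atTop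
  obtain ⟨N₂, h2⟩ := (tendsto_natCast_atTop_atTop.eventually
    (Pool.Agent.Q319.DR.ev_pow (1 / 2) (by norm_num) U 1)).exists_forall_of_atTop
  refine ⟨N₀ + N₁ + N₂ + 16, fun N hN S hS hSb => ?_⟩
  have hL := h1 N (by omega)
  have hs := h2 N (by omega)
  have hN16 : (16 : ℝ) ≤ N := by exact_mod_cast (by omega : 16 ≤ N)
  refine h0 N (by omega) N (fun m => (m : ℤ)) (fun m hm => ?_) ?_ S hS ?_
  · rw [abs_of_nonneg (Int.natCast_nonneg m)]
    exact_mod_cast (mem_Icc.1 hm).2
  · rw [Pool.Agent.Q319.DR.energy_id]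
    apply le_of_eq
    ring
  · intro q hq
    obtain ⟨h3, h4⟩ := hSb q hq
    have h5 := mem_Icc.1 (hS hq)
    refine ⟨by exact_mod_cast h5.1, ?_, ?_⟩
    · rw [Int.toNat_natCast]
      refine h3.trans ?_
      apply mul_le_mul_of_nonneg_left _ (Nat.cast_nonneg _)
      exact pow_le_pow_right₀ hL (le_max_right _ _)
    · rw [Int.toNat_natCast]
      intro h6
      apply h4
      intro lam hl1 hl2
      -- `log q ≥ 1`
      have h7 : (4 : ℝ) ≤ q := by
        have e1 : (N : ℝ) ≤ q * (N : ℝ) ^ (1 / 2 : ℝ) := by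
          refine h3.trans ?_
          apply mul_le_mul_of_nonneg_left _ (Nat.cast_nonneg _)
          linarith
        have e2 : (4 : ℝ) ≤ (N : ℝ) ^ (1 / 2 : ℝ) := by
          rw [← Real.sqrt_eq_rpow]
          apply Real.le_sqrt_of_sq_le
          linarith
        have e3 : (N : ℝ) = (N : ℝ) ^ (1 / 2 : ℝ) * (N : ℝ) ^ (1 / 2 : ℝ) := by
          rw [← Real.rpow_add (by linarith)]
          norm_num
        have e4 : (N : ℝ) ^ (1 / 2 : ℝ) * (N : ℝ) ^ (1 / 2 : ℝ) ≤ q * (N : ℝ) ^ (1 / 2 : ℝ) := by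
          rw [← e3]; exact e1
        exact e2.trans (le_of_mul_le_mul_right e4 (by linarith))
      have h8 : 1 ≤ Real.log q := by
        rw [Real.le_log_iff_exp_le (by linarith)]
        linarith [Real.exp_one_lt_d9]
      exact h6 lam hl1 (hl2.trans (pow_le_pow_right₀ h8 (le_max_left _ _)))

/-- * Let `0 < θ < 1`. There is `κ₀ > 0` such that for all `A`, `κ`, `U`, `0 < ε ≤ 1` and all large `N` there is a set
  `E` of real numbers of measure at most `N ^ (1 - θ - κ₀)` with the following property. Let `y` be a real number with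
  `N ^ (1 - θ) ≤ y ≤ 2 N ^ (1 - θ)` which does not belong to `E`. For all `k ≤ N ^ θ`, with at most
  `N ^ θ / log ^ U N` exceptions, ALL integers `a` with `|a - k y| ≤ log ^ A N` satisfy, for ALL real `lam` with
  `1 ≤ lam ≤ log ^ κ a`: the least prime `p(a, b)` is larger than `lam φ(a) log a` for at most `(1 + ε) φ(a) / lam` of
  the reduced classes `b` (so `p(a, b) ≤ φ(a) log ^ 2 a` for all but `(1 + ε) φ(a) / log a` of them, if `κ ≥ 1`), and
  for all `η > 0` at most `(1 + ε) φ(a) / (η² lam)` of the reduced classes `b` have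
  `|ψ(lam φ(a) log a; a, b) - lam log a| ≥ η lam log a`.
* Let `b` be a sequence of natural numbers with `b k ≥ exp (k ^ δ)` for all large `k`, where `δ > 0`. For almost every
  real number `α > 0` the following holds for all `A`, `κ` and `n`: for all large `k` ALL integers `a` with
  `|a - α b k| ≤ log ^ A (b k)` have the same property with `ε = 1 / (n + 1)`. -/
theorem result :
    (∀ θ : ℝ, 0 < θ → θ < 1 → ∃ κ₀ : ℝ, 0 < κ₀ ∧ ∀ (A κ U : ℕ) (ε : ℝ), 0 < ε → ε ≤ 1 → ∃ N₀ : ℕ, ∀ N : ℕ, N₀ ≤ N →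
      ∃ E : Set ℝ, MeasurableSet E ∧ volume E ≤ ENNReal.ofReal ((N : ℝ) ^ (1 - θ - κ₀)) ∧
        ∀ y : ℝ, (N : ℝ) ^ (1 - θ) ≤ y → y ≤ 2 * (N : ℝ) ^ (1 - θ) → y ∉ E →
          (exceptions ((N : ℝ) ^ θ) y (Real.log N ^ A) (Good ε κ) : ℝ) ≤ (N : ℝ) ^ θ / Real.log N ^ U) ∧
    (∀ (b : ℕ → ℕ) (δ : ℝ), 0 < δ → (∀ᶠ k : ℕ in atTop, Real.exp ((k : ℝ) ^ δ) ≤ b k) →
      ∀ᵐ α : ℝ, 0 < α → ∀ A κ n : ℕ, ∀ᶠ k : ℕ in atTop,
        ∀ a : ℕ, |(a : ℝ) - α * b k| ≤ Real.log (b k) ^ A → Good (1 / ((n : ℝ) + 1)) κ a) := by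
  classical
  constructor
  · intro θ hθ hθ1
    obtain ⟨κ₀, hκ₀, h⟩ := Pool.Agent.Q319.DR.mult_few θ hθ hθ1
    exact ⟨κ₀, hκ₀, fun A κ U ε hε hε1 => h _ (sparse ε hε hε1 κ) A U⟩
  · intro b δ hδ hb
    have h1 : ∀ᵐ α : ℝ, ∀ κ : ℕ, 0 < α → ∀ A n : ℕ, ∀ᶠ k : ℕ in atTop,
        ∀ a : ℕ, |(a : ℝ) - α * b k| ≤ Real.log (b k) ^ A → ¬ ¬ Good (1 / ((n : ℝ) + 1)) κ a := by
      rw [ae_all_iff]
      intro κ
      exact Pool.Agent.Q319.DR.lac_all_count (fun n _ q => ¬ Good (1 / ((n : ℝ) + 1)) κ q) (fun n =>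
        sparse (1 / ((n : ℝ) + 1)) (by positivity) (by
          rw [div_le_one (by positivity)]
          have : (0 : ℝ) ≤ n := Nat.cast_nonneg _
          linarith) κ) b δ hδ hb
    filter_upwards [h1] with α hα hα0 A κ n
    filter_upwards [hα κ hα0 A n] with k hk q hq
    exact not_not.1 (hk q hq)

end Pool.Agent.Results.MP_5b0a7e_nt.ModuliAtRealMultiples
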