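import Pool.Agent.Q56.TF.Mod

/-!
# The least primes in almost all residue classes to all moduli near almost all members of a real sequence

The moduli `a` are arbitrary integers with `|a - r m| ≤ log ^ A N` and `a ≥ N / log ^ κ N`, for almost all `m ≤ x`,
where `r 1, ..., r x` is an arbitrary family of real numbers of nearly minimal energy; for instance the (real) values
`β + κ₀ f m` of a polynomial `f` with integer coefficients, with arbitrary real `κ₀ ≠ 0` and `β`, or of a generalised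
polynomial `f t = ∑ w_y t ^ y` whose largest exponent is greater than `1` and not an integer (`f t = t ^ c`: the
sequences of Piatetski-Shapiro).

From Mathlib: `ArithmeticFunction.vonMangoldt`: the function `Λ`; `Nat.totient`: Euler's function `φ`;
`Polynomial ℤ`, `f.eval m`: polynomials and their values. The bounds for families of integers are from the starting
files (`Pool.Agent.TH935.HM.lp_fam`).
-/

set_option autoImplicit false

namespace Pool.Agent.Results.MP_5b0a7e_nt.ModuliNearRealSequences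

open Finset

open Classical in
/-- The energy of order `p` of the family of real numbers `r 1, ..., r x`: the number of the pairs `v`, `w` of
`p`-tuples of elements of `{1, ..., x}` such that `r (v 1) + ... + r (v p)` and `r (w 1) + ... + r (w p)` differ
by at most `1`. -/
noncomputable def energy (p x : ℕ) (r : ℕ → ℝ) : ℕ :=
  (((Fintype.piFinset fun _ : Fin p => Icc 1 x) ×ˢ (Fintype.piFinset fun _ : Fin p => Icc 1 x)).filter
    (fun q => |∑ i, r (q.1 i) - ∑ i, r (q.2 i)| ≤ 1)).card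

open Classical in
/-- The number of the `b` with `0 ≤ b < a` and `gcd(a, b) = 1` for which no prime `p ≤ y` is congruent to `b` modulo
`a`; for `a ≥ 2` this is the number of the reduced classes with `p(a, b) > y`. -/
noncomputable def late (a : ℕ) (y : ℝ) : ℕ :=
  ((range a).filter (fun b => Nat.Coprime b a ∧ ∀ p : ℕ, p.Prime → (p : ℝ) ≤ y → ¬ p % a = b)).card

/-- `ψ(y; a, b) = ∑_{n ≤ y, n ≡ b mod a} Λ(n)` for `0 ≤ b < a` -/
noncomputable def psiAP (y : ℝ) (a b : ℕ) : ℝ :=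
  ∑ n ∈ (Icc 1 ⌊y⌋₊).filter (fun n => n % a = b), ArithmeticFunction.vonMangoldt n

open Classical in
/-- The number of the `b` with `0 ≤ b < a` and `gcd(a, b) = 1` with
`|ψ(lam φ(a) log a; a, b) - lam log a| ≥ η lam log a`. -/
noncomputable def off (a : ℕ) (lam η : ℝ) : ℕ :=
  ((range a).filter (fun b => Nat.Coprime b a ∧ η * (lam * Real.log a) ≤
    |psiAP (lam * (Nat.totient a * Real.log a)) a b - lam * Real.log a|)).card

/-- The modulus `a` is good: for all real `1 ≤ lam ≤ (log a) ^ κ` the least prime `p(a, b)` is larger than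
`lam φ(a) log a` for at most `(1 + ε) φ(a) / lam` of the reduced classes `b`, and for all `η > 0` at most
`(1 + ε) φ(a) / (η² lam)` of the reduced classes `b` have `|ψ(lam φ(a) log a; a, b) - lam log a| ≥ η lam log a`. -/
def Good (ε : ℝ) (κ a : ℕ) : Prop :=
  ∀ lam : ℝ, 1 ≤ lam → lam ≤ Real.log a ^ κ →
    (late a (lam * (Nat.totient a * Real.log a)) : ℝ) ≤ (1 + ε) * Nat.totient a / lam ∧
    ∀ η : ℝ, 0 < η → (off a lam η : ℝ) ≤ (1 + ε) * Nat.totient a / (lam * η ^ 2)

open Classical in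
/-- The number of the `m` in `{1, ..., x}` for which not all integers `a ≥ N / log ^ κ N` at a distance of at most `w`
from `r m` have the property `G`. -/
noncomputable def exceptions (κ N x : ℕ) (r : ℕ → ℝ) (w : ℝ) (G : ℕ → Prop) : ℕ :=
  ((Icc 1 x).filter (fun m => ∃ a : ℕ, (N : ℝ) ≤ a * Real.log N ^ κ ∧ |(a : ℝ) - r m| ≤ w ∧ ¬ G a)).card

/-- The bound at scale `N` for the windows around the `r m`, `m ≤ x`: for all `m ≤ x` with at most `x / log ^ U N`
exceptions all integers `a ≥ N / log ^ κ N` with `|a - r m| ≤ log ^ A N` are good moduli. -/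
def Holds (ε : ℝ) (A κ U N x : ℕ) (r : ℕ → ℝ) : Prop :=
  (exceptions κ N x r (Real.log N ^ A) (Good ε κ) : ℝ) ≤ x / Real.log N ^ U

/-- The sequence `f`, of growth `x ^ e`, has the property at all large scales: for all `x` with
`N / log ^ C N ≤ x ^ e ≤ B N` and all translates `β + f m`, `|β| ≤ B N`. -/
def Sequence (ε : ℝ) (A B C κ U : ℕ) (f : ℕ → ℝ) (e : ℝ) : Prop :=
  ∃ N₀ : ℕ, ∀ N : ℕ, N₀ ≤ N → ∀ x : ℕ, (x : ℝ) ^ e ≤ B * N → (N : ℝ) ≤ Real.log N ^ C * (x : ℝ) ^ e →
    ∀ β : ℝ, |β| ≤ B * N → Holds ε A κ U N x (fun m => β + f m)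

lemma good_iff (ε : ℝ) (κ a : ℕ) : Good ε κ a ↔ Pool.Agent.TH935.HM.Lp ε κ a a := Iff.rfl

lemma holds_of (A B' κ U p C' : ℕ) (hB1 : 1 ≤ B') (ε : ℝ) (hε : 0 < ε) (hε1 : ε ≤ 1) :
    ∃ N₀ : ℕ, ∀ N : ℕ, N₀ ≤ N → ∀ (x : ℕ) (r : ℕ → ℝ), Pool.Agent.Q56.TF.Near A p B' C' N x r →
      Holds ε A κ U N x r := by
  classical
  obtain ⟨N₁, h1⟩ := Pool.Agent.Q56.TF.lp_near A p B' C' κ U hB1 ε hε hε1
  refine ⟨N₁, fun N hN x r hm => ?_⟩
  refine h1 N hN x r hm _ (filter_subset _ _) ?_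
  intro m hm
  obtain ⟨_, a, ha1, ha2, ha3⟩ := mem_filter.1 hm
  exact ⟨a, ha2, ha1, by rw [← good_iff]; exact ha3⟩

lemma sequence_of {f : ℕ → ℝ} {e : ℝ} (h : Pool.Agent.Q56.TF.Base f e) (he : 1 ≤ e) (A B C κ U : ℕ) (ε : ℝ)
    (hε : 0 < ε) (hε1 : ε ≤ 1) : Sequence ε A B C κ U f e := by
  obtain ⟨p, B', C', N₀, h1⟩ := Pool.Agent.Q56.TF.near_base h he A B C
  obtain ⟨N₁, h2⟩ := holds_of A (B + B' + 1) κ U p C' (by omega) ε hε hε1
  exact ⟨N₀ + N₁, fun N hN x hx1 hx2 β hβ =>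
    h2 N (by omega) x _ ((h1 N (by omega) x hx1 hx2 β hβ).mono (by omega))⟩

/-- Let `A`, `B`, `C`, `κ`, `U` and `0 < ε ≤ 1` be fixed.

* For every `p` the following holds for all large `N`. Let `r 1, ..., r x` be an arbitrary family of real numbers in
  `[-B N, B N]` with an energy of order `p` of at most `log ^ C N` times `x ^ (2 p) / N` (the minimal possible order
  of magnitude). For all `m ≤ x` with at most `x / log ^ U N` exceptions, ALL moduli `a` with `|a - r m| ≤ log ^ A N`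
  and `a ≥ N / log ^ κ N` satisfy, for ALL real `lam` with `1 ≤ lam ≤ log ^ κ a`: the least prime `p(a, b)` is larger
  than `lam φ(a) log a` for at most `(1 + ε) φ(a) / lam` of the reduced classes `b` (so `p(a, b) ≤ φ(a) log ^ 2 a` for
  all but `(1 + ε) φ(a) / log a` of them), and for all `η > 0` at most `(1 + ε) φ(a) / (η² lam)` of the reduced
  classes `b` have `|ψ(lam φ(a) log a; a, b) - lam log a| ≥ η lam log a`.
* This holds for `r m = β + κ₀ f m`, `m ≤ x`, where `f` is a fixed nonconstant polynomial with integer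
  coefficients, of degree `d`, `κ₀ ≠ 0` is a fixed real number, `β` is any real number with `|β| ≤ B N`, and
  `N / log ^ C N ≤ x ^ d ≤ B N`.
* This holds for `r m = β + ∑ w_y m ^ y` (a sum over a finite set `F` of real exponents `y`), if the largest
  exponent `e` is greater than `1` and not an integer, `w_e ≠ 0`, `|β| ≤ B N` and `N / log ^ C N ≤ x ^ e ≤ B N`; for
  instance for `r m = β + m ^ e`. -/
theorem result (A B C κ U : ℕ) (ε : ℝ) (hε : 0 < ε) (hε1 : ε ≤ 1) :
    (∀ p : ℕ, ∃ N₀ : ℕ, ∀ N : ℕ, N₀ ≤ N → ∀ (x : ℕ) (r : ℕ → ℝ), (∀ m ∈ Icc 1 x, |r m| ≤ B * N) →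
      (energy p x r : ℝ) * N ≤ Real.log N ^ C * (x : ℝ) ^ (2 * p) → Holds ε A κ U N x r) ∧
    (∀ f : Polynomial ℤ, 1 ≤ f.natDegree → ∀ κ₀ : ℝ, κ₀ ≠ 0 →
      Sequence ε A B C κ U (fun m => κ₀ * ((f.eval (m : ℤ) : ℤ) : ℝ)) f.natDegree) ∧
    (∀ (F : Finset ℝ) (w : ℝ → ℝ) (e : ℝ), e ∈ F → (∀ y ∈ F, y ≤ e) → w e ≠ 0 → 1 < e → (∀ k : ℕ, e ≠ k) →
      Sequence ε A B C κ U (fun m => ∑ y ∈ F, w y * (m : ℝ) ^ y) e) := by
  classical
  refine ⟨fun p => ?_, fun f hd κ₀ hκ => ?_, fun F w e heF hmax hwe he hen => ?_⟩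
  · obtain ⟨B', C', N₀, h1⟩ := Pool.Agent.Q56.TF.near_gen p A B C
    obtain ⟨N₁, h2⟩ := holds_of A (B + B' + 1) κ U p C' (by omega) ε hε hε1
    exact ⟨N₀ + N₁, fun N hN x r hr hE => h2 N (by omega) x _ ((h1 N (by omega) x r hr hE).mono (by omega))⟩
  · exact sequence_of ((Pool.Agent.Q56.TF.base_poly f hd).dil hκ) (by exact_mod_cast hd) A B C κ U ε hε hε1
  · exact sequence_of (Pool.Agent.Q56.TF.base_gp F w e heF hmax hwe he hen) he.le A B C κ U ε hε hε1

end Pool.Agent.Results.MP_5b0a7e_nt.ModuliNearRealSequences
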