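import Pool.Agent.W109.LT.Poly
import Pool.Agent.Q56.TF.Near
import Pool.Agent.Q56.TF.Sub

/-!
# The least prime `p(m, c)` in the progression `c mod m`: all residues `c` in windows around real sequences

The residues `c` are all the integers of `[1, M]` at a distance of at most `log ^ A M` from `r i`, for almost all
`i ≤ x`, where `r 1, ..., r x` is an arbitrary family of real numbers of nearly minimal energy; for instance the
(real) values `β + κ₀ f i` of a polynomial `f` with integer coefficients, with arbitrary real `κ₀ ≠ 0` and `β`, or of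
a generalised polynomial `f t = ∑ w_y t ^ y` whose largest exponent is greater than `1` and not an integer
(`f t = t ^ c`: the sequences of Piatetski-Shapiro). The moduli `m` are almost all the integers of `(M, 2 M]`.

From Mathlib: `p ≡ c [MOD m]`: congruence; `Nat.totient`: Euler's function `φ`; `Polynomial ℤ`, `f.eval i`:
polynomials and their values. The bound for families of integers is from the starting files
(`Pool.Agent.W109.LT.families`).
-/

set_option autoImplicit false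

namespace Pool.Agent.Results.MP_5b0a7e_nt.ResiduesNearRealSequences

open Finset

open Classical in
/-- The energy of order `p` of the family of real numbers `r 1, ..., r x`: the number of the pairs `v`, `w` of
`p`-tuples of elements of `{1, ..., x}` such that `r (v 1) + ... + r (v p)` and `r (w 1) + ... + r (w p)` differ
by at most `1`. -/
noncomputable def energy (p x : ℕ) (r : ℕ → ℝ) : ℕ :=
  (((Fintype.piFinset fun _ : Fin p => Icc 1 x) ×ˢ (Fintype.piFinset fun _ : Fin p => Icc 1 x)).filter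
    (fun q => |∑ i, r (q.1 i) - ∑ i, r (q.2 i)| ≤ 1)).card

/-- `π(y; m, c)`: the number of the primes `p ≤ y` with `p ≡ c (mod m)`. -/
noncomputable def primesAP (y : ℝ) (m c : ℕ) : ℕ :=
  ((Icc 1 ⌊y⌋₊).filter (fun p : ℕ => p.Prime ∧ p ≡ c [MOD m])).card

/-- The modulus `m` is as expected: some prime `p ≡ c (mod m)` is at most `lam m log m`, and the number of these
primes is `lam m / φ(m)` up to a relative error `ε`. -/
def AsExpected (ε lam : ℝ) (m c : ℕ) : Prop :=
  (∃ p : ℕ, p.Prime ∧ p ≡ c [MOD m] ∧ (p : ℝ) ≤ lam * m * Real.log m) ∧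
    |(primesAP (lam * m * Real.log m) m c : ℝ) - lam * m / Nat.totient m| ≤
      ε * (lam * m / Nat.totient m)

open Classical in
/-- The number of the moduli `M < m ≤ 2 M` coprime to `c` which are not as expected. -/
noncomputable def exceptions (ε lam : ℝ) (M c : ℕ) : ℕ :=
  ((Ioc M (2 * M)).filter (fun m : ℕ => m.Coprime c ∧ ¬ AsExpected ε lam m c)).card

/-- `c` is typical: for every real `lam` with `1 ≤ lam ≤ (log M) ^ κ` there are at most
`K M (1 / lam + 1 / (log M) ^ δ)` exceptional moduli `M < m ≤ 2 M`. -/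
def Typical (ε K δ : ℝ) (κ M c : ℕ) : Prop := ∀ lam : ℝ, 1 ≤ lam → lam ≤ Real.log M ^ κ →
  (exceptions ε lam M c : ℝ) ≤ K * M * (1 / lam + 1 / Real.log M ^ δ)

open Classical in
/-- The number of the `i` in `{1, ..., x}` for which not all integers `c` of `[1, M]` at a distance of at most `w` from
`r i` have the property `G`. -/
noncomputable def atypical (M x : ℕ) (r : ℕ → ℝ) (w : ℝ) (G : ℕ → Prop) : ℕ :=
  ((Icc 1 x).filter (fun i => ∃ c : ℕ, 1 ≤ c ∧ c ≤ M ∧ |(c : ℝ) - r i| ≤ w ∧ ¬ G c)).card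

/-- The bound at scale `M` for the windows around the `r i`, `i ≤ x`: for all `i ≤ x` with at most `x / log ^ U M`
exceptions all integers `c` of `[1, M]` with `|c - r i| ≤ log ^ A M` are typical residues. -/
def Holds (ε K δ : ℝ) (A κ U M x : ℕ) (r : ℕ → ℝ) : Prop :=
  (atypical M x r (Real.log M ^ A) (Typical ε K δ κ M) : ℝ) ≤ x / Real.log M ^ U

/-- The sequence `f`, of growth `x ^ e`, has the property at all large scales: for all `x` with
`M / log ^ C M ≤ x ^ e ≤ B M` and all translates `β + f i`, `|β| ≤ B M`. -/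
def Sequence (ε K δ : ℝ) (A B C κ U : ℕ) (f : ℕ → ℝ) (e : ℝ) : Prop :=
  ∃ M₀ : ℕ, ∀ M : ℕ, M₀ ≤ M → ∀ x : ℕ, (x : ℝ) ^ e ≤ B * M → (M : ℝ) ≤ Real.log M ^ C * (x : ℝ) ^ e →
    ∀ β : ℝ, |β| ≤ B * M → Holds ε K δ A κ U M x (fun i => β + f i)

lemma typ_conv (ε C δ : ℝ) (κ M c : ℕ) (hε : ε < 1) (_hM : 1 ≤ M)
    (h : Pool.Agent.W109.LT.Typical ε C δ κ M c) : Typical ε C δ κ M c := by
  classical
  intro lam h1 h2
  refine le_trans ?_ (h lam h1 h2)
  unfold exceptions
  have hsub : (Ioc M (2 * M)).filter (fun m : ℕ => m.Coprime c ∧ ¬ AsExpected ε lam m c) ⊆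
      (Ioc M (2 * M)).filter (fun m : ℕ => m.Coprime c ∧
        ¬ |(Pool.Agent.W109.LT.primesAP (lam * m * Real.log m) m c : ℝ) - lam * m / Nat.totient m| ≤
          ε * (lam * m / Nat.totient m)) := by
    intro m hm
    rw [mem_filter] at hm ⊢
    refine ⟨hm.1, hm.2.1, fun h3 => hm.2.2 ?_⟩
    have h3' : |(primesAP (lam * m * Real.log m) m c : ℝ) - lam * m / Nat.totient m| ≤
      ε * (lam * m / Nat.totient m) := h3
    refine ⟨?_, h3'⟩
    have hm1 := mem_Ioc.1 hm.1
    have hmp : (0 : ℝ) < m := by exact_mod_cast (by omega : 0 < m)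
    have htp : (0 : ℝ) < Nat.totient m := by exact_mod_cast Nat.totient_pos.2 (by omega)
    have hu : 0 < lam * m / Nat.totient m := by positivity
    have h4 := (abs_le.1 h3').1
    have h5 : (0 : ℝ) < primesAP (lam * m * Real.log m) m c := by nlinarith
    have h6 : 0 < primesAP (lam * m * Real.log m) m c := by exact_mod_cast h5
    unfold primesAP at h6
    obtain ⟨p, hp⟩ := card_pos.1 h6
    rw [mem_filter, mem_Icc] at hp
    refine ⟨p, hp.2.1, hp.2.2, ?_⟩
    have hy : 0 ≤ lam * m * Real.log m := by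
      have : 0 ≤ Real.log m := Real.log_natCast_nonneg m
      positivity
    exact (Nat.le_floor_iff hy).1 hp.1.2
  exact_mod_cast card_le_card hsub

open Classical in
lemma holds_of (ε K δ : ℝ) (hε1 : ε < 1) (A B κ U p C : ℕ)
    (hfam : ∀ C U : ℕ, ∃ M0 : ℕ, ∀ M : ℕ, M0 ≤ M → ∀ (x : ℕ) (s : ℕ → ℕ), (∀ i ∈ Icc 1 x, 1 ≤ s i ∧ s i ≤ M) →
      (Pool.Agent.H560R3.GB.energy p x s : ℝ) * M ≤ Real.log M ^ C * (x : ℝ) ^ (2 * p) →
      (((Icc 1 x).filter (fun i : ℕ => ¬ Pool.Agent.W109.LT.Typical ε K δ κ M (s i))).card : ℝ) ≤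
        x / Real.log M ^ U) :
    ∃ M₀ : ℕ, ∀ M : ℕ, M₀ ≤ M → ∀ (x : ℕ) (r : ℕ → ℝ), Pool.Agent.Q56.TF.Near A p B C M x r →
      Holds ε K δ A κ U M x r := by
  obtain ⟨M₁, h1⟩ := Pool.Agent.Q56.TF.subfam p C U (fun M c => Typical ε K δ κ M c) (by
    intro C
    obtain ⟨M0, h0⟩ := hfam C 1
    refine ⟨M0 + 1, fun M hM x s hs hE S hS hSb => ?_⟩
    have h2 := h0 M (by omega) x s hs hE
    rw [pow_one] at h2
    refine le_trans ?_ h2
    apply Nat.cast_le.2
    apply card_le_card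
    intro i hi
    rw [mem_filter]
    exact ⟨hS hi, fun h3 => hSb i hi (typ_conv ε K δ κ M (s i) hε1 (by omega) h3)⟩)
  refine ⟨M₁, fun M hM x r hnear => ?_⟩
  obtain ⟨s, h2, h3, h4⟩ := hnear (fun a : ℤ => 1 ≤ a ∧ a ≤ M ∧ ¬ Typical ε K δ κ M a.toNat)
  refine h1 M hM x s h3 _ (filter_subset _ _) ?_
  intro i hi
  obtain ⟨_, c, hc1, hc2, hc3, hc4⟩ := mem_filter.1 hi
  exact h4 i ⟨c, by exact_mod_cast hc3, by exact_mod_cast hc1, by exact_mod_cast hc2, by simpa using hc4⟩

/-- For `0 < ε ≤ 9 / 10` there are `K, δ > 0`, depending only on `ε`, such that for all fixed `A`, `B`, `C`, `κ`, `U`: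

* For every `p` the following holds for all large `M`. Let `r 1, ..., r x` be an arbitrary family of real numbers in
  `[-B M, B M]` with an energy of order `p` of at most `log ^ C M` times `x ^ (2 p) / M` (the minimal possible order
  of magnitude). For all `i ≤ x` with at most `x / log ^ U M` exceptions, ALL residues `c` in `[1, M]` with
  `|c - r i| ≤ log ^ A M` are typical: for all real `lam` with `1 ≤ lam ≤ log ^ κ M`, for all moduli `m` in
  `(M, 2 M]` coprime to `c`, with at most `K M (1 / lam + 1 / log ^ δ M)` exceptions, the least prime `p(m, c)` is at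
  most `lam m log m`, and the number of the primes `p ≤ lam m log m`, `p ≡ c (mod m)` is `(1 + O(ε)) lam m / φ(m)`.
* This holds for `r i = β + κ₀ f i`, `i ≤ x`, where `f` is a fixed nonconstant polynomial with integer
  coefficients, of degree `d`, `κ₀ ≠ 0` is a fixed real number, `β` is any real number with `|β| ≤ B M`, and
  `M / log ^ C M ≤ x ^ d ≤ B M`.
* This holds for `r i = β + ∑ w_y i ^ y` (a sum over a finite set `F` of real exponents `y`), if the largest
  exponent `e` is greater than `1` and not an integer, `w_e ≠ 0`, `|β| ≤ B M` and `M / log ^ C M ≤ x ^ e ≤ B M`; for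
  instance for `r i = β + i ^ e`. -/
theorem result (ε : ℝ) (hε : 0 < ε) (hε1 : ε ≤ 9 / 10) : ∃ K δ : ℝ, 0 < K ∧ 0 < δ ∧ ∀ A B C κ U : ℕ,
    (∀ p : ℕ, ∃ M₀ : ℕ, ∀ M : ℕ, M₀ ≤ M → ∀ (x : ℕ) (r : ℕ → ℝ), (∀ i ∈ Icc 1 x, |r i| ≤ B * M) →
      (energy p x r : ℝ) * M ≤ Real.log M ^ C * (x : ℝ) ^ (2 * p) → Holds ε K δ A κ U M x r) ∧
    (∀ f : Polynomial ℤ, 1 ≤ f.natDegree → ∀ κ₀ : ℝ, κ₀ ≠ 0 →
      Sequence ε K δ A B C κ U (fun i => κ₀ * ((f.eval (i : ℤ) : ℤ) : ℝ)) f.natDegree) ∧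
    (∀ (F : Finset ℝ) (w : ℝ → ℝ) (e : ℝ), e ∈ F → (∀ y ∈ F, y ≤ e) → w e ≠ 0 → 1 < e → (∀ k : ℕ, e ≠ k) →
      Sequence ε K δ A B C κ U (fun i => ∑ y ∈ F, w y * (i : ℝ) ^ y) e) := by
  classical
  obtain ⟨K, δ, hK, hδ, hfam⟩ := Pool.Agent.W109.LT.families ε hε hε1
  refine ⟨K, δ, hK, hδ, fun A B C κ U => ?_⟩
  have hseq : ∀ (f : ℕ → ℝ) (e : ℝ), Pool.Agent.Q56.TF.Base f e → 1 ≤ e → Sequence ε K δ A B C κ U f e := by
    intro f e h he
    obtain ⟨p, B', C', N₀, h1⟩ := Pool.Agent.Q56.TF.near_base h he A B C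
    obtain ⟨N₁, h2⟩ := holds_of ε K δ (by linarith) A B' κ U p C' (fun C U => hfam p C U κ)
    exact ⟨N₀ + N₁, fun N hN x hx1 hx2 β hβ => h2 N (by omega) x _ (h1 N (by omega) x hx1 hx2 β hβ)⟩
  refine ⟨fun p => ?_, fun f hd κ₀ hκ => ?_, fun F w e heF hmax hwe he hen => ?_⟩
  · obtain ⟨B', C', N₀, h1⟩ := Pool.Agent.Q56.TF.near_gen p A B C
    obtain ⟨N₁, h2⟩ := holds_of ε K δ (by linarith) A B' κ U p C' (fun C U => hfam p C U κ)
    exact ⟨N₀ + N₁, fun N hN x r hr hE => h2 N (by omega) x _ (h1 N (by omega) x r hr hE)⟩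
  · exact hseq _ _ ((Pool.Agent.Q56.TF.base_poly f hd).dil hκ) (by exact_mod_cast hd)
  · exact hseq _ _ (Pool.Agent.Q56.TF.base_gp F w e heF hmax hwe he hen) he.le

end Pool.Agent.Results.MP_5b0a7e_nt.ResiduesNearRealSequences
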